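import Mathlib
import Pool.Agent.W523.LV.Stmts
import Pool.Agent.H782R3.BC.Sum

/-! # LV-SUM: elementary estimates for cells -/

set_option autoImplicit false

open Finset

namespace Pool.Agent.W999.LV

open Pool.Agent.H96R3.BC (vv UU CC)
open Pool.Agent.W523.LV
open Pool.Agent.H782R3.BCSum (cell card_up card_lo)

section pointwise
variable {a b U' h c K : ℝ} {r : ℕ}

theorem s1 (hb : 1 ≤ b) (hab : b ≤ a) (hU0 : 0 ≤ U') (hU : U' ≤ 2 * (a / b)) (hh0 : 0 ≤ h)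
    (hh : h ≤ 1 / (a * b)) :
    h ^ (4 * r + 14) * U' ^ (4 * r + 16) / (a / b) ^ (4 * r + 16) ≤
      2 ^ (4 * r + 16) / (b ^ 2 * a ^ 4) := by
  have hb0 : 0 < b := by linarith
  have ha0 : 0 < a := by linarith
  have h1 : h ^ (4 * r + 14) * U' ^ (4 * r + 16) / (a / b) ^ (4 * r + 16) ≤
      (1 / (a * b)) ^ (4 * r + 14) * (2 * (a / b)) ^ (4 * r + 16) / (a / b) ^ (4 * r + 16) := by
    gcongr
  have h2 : (1 / (a * b)) ^ (4 * r + 14) * (2 * (a / b)) ^ (4 * r + 16) / (a / b) ^ (4 * r + 16) =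
      2 ^ (4 * r + 16) / (b ^ 2 * a ^ 4) * ((1 / a) ^ (4 * r + 10) * (1 / b) ^ (4 * r + 12)) := by
    simp only [div_pow, mul_pow, one_pow]
    field_simp
    ring
  have h3 : (1 / a) ^ (4 * r + 10) ≤ 1 :=
    pow_le_one₀ (by positivity) ((div_le_one ha0).2 (by linarith))
  have h4 : (1 / b) ^ (4 * r + 12) ≤ 1 :=
    pow_le_one₀ (by positivity) ((div_le_one hb0).2 (by linarith))
  rw [h2] at h1
  refine h1.trans ?_
  exact mul_le_of_le_one_right (by positivity) (mul_le_one₀ h3 (by positivity) h4)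

theorem s2 (hb : 1 ≤ b) (hab : b ≤ a) (hU0 : 0 ≤ U') (hU : U' ≤ 2 * (a / b)) (hh0 : 0 ≤ h)
    (hh : h ≤ 1 / (a * b)) (hc0 : 0 ≤ c) (hc : c ≤ K * a ^ (4 * r + 14)) :
    h ^ (4 * r + 13) / (a / b) ^ (4 * r + 16) * (c * U' ^ 2) ≤
      4 * K * b * (a ^ 3 / a ^ (4 * r + 16)) := by
  have hb0 : 0 < b := by linarith
  have ha0 : 0 < a := by linarith
  have hK : 0 ≤ K := by
    by_contra hneg
    have : K * a ^ (4 * r + 14) < 0 := mul_neg_of_neg_of_pos (not_le.1 hneg) (by positivity)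
    linarith
  have h1 : h ^ (4 * r + 13) / (a / b) ^ (4 * r + 16) * (c * U' ^ 2) ≤
      (1 / (a * b)) ^ (4 * r + 13) / (a / b) ^ (4 * r + 16) *
        ((K * a ^ (4 * r + 14)) * (2 * (a / b)) ^ 2) := by gcongr
  refine h1.trans (le_of_eq ?_)
  simp only [div_pow, mul_pow, one_pow]
  field_simp
  ring

theorem s3 {L : ℝ} (hb : 1 ≤ b) (hab : b ≤ a) (hU0 : 0 ≤ U') (hU : U' ≤ 2 * (a / b)) (_hh0 : 0 ≤ h)
    (hh : h ≤ 1 / (a * b)) (hL0 : 0 ≤ L) (hL : L ≤ 432 * a) (hc : a ^ (4 * r + 14) ≤ c) :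
    h * U' ^ (4 * r + 16) * L ≤
      432 * 2 ^ (4 * r + 16) * (b / b ^ (4 * r + 16)) * (c * (a / b) ^ 2) := by
  have hb0 : 0 < b := by linarith
  have ha0 : 0 < a := by linarith
  have h1 : h * U' ^ (4 * r + 16) * L ≤
      1 / (a * b) * (2 * (a / b)) ^ (4 * r + 16) * (432 * a) := by gcongr
  have h2 : 1 / (a * b) * (2 * (a / b)) ^ (4 * r + 16) * (432 * a) =
      432 * 2 ^ (4 * r + 16) * (b / b ^ (4 * r + 16)) * (a ^ (4 * r + 14) * (a / b) ^ 2) := by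
    simp only [div_pow, mul_pow]
    field_simp
    ring
  rw [h2] at h1
  refine h1.trans ?_
  gcongr

end pointwise

theorem log_cube (j : ℕ) (hj : 1 ≤ j) : (Real.log ((j : ℝ) + 1)) ^ 3 ≤ 432 * Real.sqrt j := by
  have hj' : (1 : ℝ) ≤ j := by exact_mod_cast hj
  have h1 := Real.log_le_rpow_div (x := (j : ℝ) + 1) (ε := 1 / 6) (by positivity) (by norm_num)
  have h0 : 0 ≤ Real.log ((j : ℝ) + 1) := Real.log_nonneg (by linarith)
  have h2 : (Real.log ((j : ℝ) + 1)) ^ 3 ≤ (((j : ℝ) + 1) ^ ((1 : ℝ) / 6) / (1 / 6)) ^ 3 := by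
    gcongr
  refine h2.trans ?_
  have h3 : (((j : ℝ) + 1) ^ ((1 : ℝ) / 6) / (1 / 6)) ^ 3 = 216 * Real.sqrt ((j : ℝ) + 1) := by
    rw [div_pow, ← Real.rpow_natCast, ← Real.rpow_mul (by positivity), Real.sqrt_eq_rpow]
    norm_num
    ring
  rw [h3]
  have h4 : Real.sqrt ((j : ℝ) + 1) ≤ 2 * Real.sqrt j := by
    refine Real.sqrt_le_iff.2 ⟨by positivity, ?_⟩
    rw [mul_pow, Real.sq_sqrt (by positivity)]
    linarith
  linarith

theorem rp (j : ℕ) (hj : 1 ≤ j) (m k : ℕ) :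
    (j : ℝ) ^ (((m : ℝ) - (k : ℝ)) / 2) = Real.sqrt j ^ m / Real.sqrt j ^ k := by
  have hj' : (0 : ℝ) < j := by exact_mod_cast hj
  have hs : 0 < Real.sqrt j := Real.sqrt_pos.2 hj'
  have h1 : (j : ℝ) ^ (((m : ℝ) - (k : ℝ)) / 2) = Real.sqrt j ^ ((m : ℝ) - (k : ℝ)) := by
    rw [Real.sqrt_eq_rpow, ← Real.rpow_mul hj'.le]
    congr 1
    ring
  rw [h1, Real.rpow_sub hs, Real.rpow_natCast, Real.rpow_natCast]

theorem taskSum4 : TaskSum4 := by
  intro Q hQ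
  obtain ⟨r, rfl⟩ := Nat.exists_eq_add_of_le hQ
  refine ⟨432 * 2 ^ (4 * r + 16) + 4 * (((r : ℝ) + 3 + 1) * 4 ^ (r + 3 + 1)), by positivity, ?_⟩
  intro j₀ h₀ j hj
  obtain ⟨hb1, hab, hU, hU0, hU1, hh0, hh, ha4⟩ := cell j₀ j h₀ hj
  have hj1 : 1 ≤ j := by omega
  have h₀1 : 1 ≤ j₀ := by omega
  set a := Real.sqrt j with ha
  set b := Real.sqrt j₀ with hb
  set U' := UU j₀ (j + 1) with hU'
  set h := U' - UU j₀ j with hhd
  have hb0 : 0 < b := by linarith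
  have ha0 : 0 < a := by linarith
  have hbsq : (j₀ : ℝ) = b ^ 2 := by rw [hb, Real.sq_sqrt (Nat.cast_nonneg _)]
  have hC1 : (432 * 2 ^ (4 * r + 16) : ℝ) ≤
      432 * 2 ^ (4 * r + 16) + 4 * (((r : ℝ) + 3 + 1) * 4 ^ (r + 3 + 1)) := by
    have : (0 : ℝ) ≤ 4 * (((r : ℝ) + 3 + 1) * 4 ^ (r + 3 + 1)) := by positivity
    linarith
  have hC2 : 4 * (((r : ℝ) + 3 + 1) * 4 ^ (r + 3 + 1)) ≤
      432 * 2 ^ (4 * r + 16) + 4 * (((r : ℝ) + 3 + 1) * 4 ^ (r + 3 + 1)) := by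
    have : (0 : ℝ) ≤ 432 * 2 ^ (4 * r + 16) := by positivity
    linarith
  have hcu : ((CC (4 + r) j).card : ℝ) ≤ (((r : ℝ) + 3 + 1) * 4 ^ (r + 3 + 1)) * a ^ (4 * r + 14) := by
    have := card_up (r + 3) j hj1
    rw [show r + 3 + 1 = 4 + r by ring, show 4 * (r + 3) + 2 = 4 * r + 14 by ring] at this
    rw [show r + 3 + 1 = 4 + r by ring]
    push_cast at this ⊢
    exact this
  have hcl : a ^ (4 * r + 14) ≤ ((CC (4 + r) j).card : ℝ) := by
    have := card_lo (r + 3) j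
    rw [show r + 3 + 1 = 4 + r by ring, show 4 * (r + 3) + 2 = 4 * r + 14 by ring] at this
    refine le_trans ?_ this
    push_cast
    have hr : (0 : ℝ) ≤ r := Nat.cast_nonneg r
    exact le_mul_of_one_le_left (by positivity) (by linarith)
  refine ⟨?_, ?_, ?_⟩
  · rw [show 4 * (4 + r) - 2 = 4 * r + 14 by omega, show 4 * (4 + r) = 4 * r + 16 by ring, hU]
    have h1 := s1 (r := r) hb1 hab hU0 hU1 hh0 hh
    refine h1.trans ?_
    rw [← ha4, hbsq]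
    have h2 : (0 : ℝ) < b ^ 2 * a ^ 4 := by positivity
    gcongr
    have : (2 : ℝ) ^ (4 * r + 16) ≤ 432 * 2 ^ (4 * r + 16) := by
      have : (0 : ℝ) < 2 ^ (4 * r + 16) := by positivity
      linarith
    linarith
  · unfold ej
    rw [← hU', ← hhd, show 4 * (4 + r) - 3 = 4 * r + 13 by omega,
      show 4 * (4 + r) = 4 * r + 16 by ring, hU]
    have h1 := s2 (r := r) hb1 hab hU0 hU1 hh0 hh (Nat.cast_nonneg _) hcu
    refine h1.trans ?_
    have e1 : (j : ℝ) ^ ((3 - 4 * ((4 + r : ℕ) : ℝ)) / 2) = a ^ 3 / a ^ (4 * r + 16) := by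
      rw [ha, ← rp j hj1 3 (4 * r + 16)]
      congr 1
      push_cast
      ring
    have e2 : (j₀ : ℝ) ^ ((1 : ℝ) / 2) = b := by rw [hb, Real.sqrt_eq_rpow]
    rw [e1, e2]
    gcongr
  · have h1 := s3 (r := r) (L := (Real.log ((j : ℝ) + 1)) ^ 3) hb1 hab hU0 hU1 hh0 hh
      (pow_nonneg (Real.log_nonneg (by
        have : (0 : ℝ) ≤ j := Nat.cast_nonneg j
        linarith)) 3) (log_cube j hj1) hcl
    rw [show 4 * (4 + r) = 4 * r + 16 by ring, hU]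
    refine h1.trans ?_
    have e1 : (j₀ : ℝ) ^ ((1 - 4 * ((4 + r : ℕ) : ℝ)) / 2) = b / b ^ (4 * r + 16) := by
      have := rp j₀ h₀1 1 (4 * r + 16)
      rw [pow_one] at this
      rw [hb, ← this]
      congr 1
      push_cast
      ring
    rw [e1]
    exact mul_le_mul_of_nonneg_right (mul_le_mul_of_nonneg_right hC1 (by positivity))
      (mul_nonneg (Nat.cast_nonneg _) (sq_nonneg _))

end Pool.Agent.W999.LV
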